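import Pool.Agent.H30.FCBS.Conv

/-!
A Fano conic bundle `f : X → Y` with relative Picard number two over a base which is not Fano.
-/

open AlgebraicGeometry CategoryTheory FCBS

namespace Pool.Agent.Results.MP_11d637_ag.NonFanoBase

/-- There is a Fano conic bundle `f : X → Y` with `ρ_X = 5`, `ρ_Y = 3` such that `- K_Y` is not
ample. -/
theorem result : ∃ (X Y : Scheme.{0}) (_ : IsIntegral X) (_ : IsLocallyNoetherian X)
    (_ : IsIntegral Y) (_ : IsLocallyNoetherian Y) (s : X ⟶ Spec (.of ℂ)) (t : Y ⟶ Spec (.of ℂ))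
    (f : X ⟶ Y), IsVar s ∧ IsVar t ∧ IsFanoConicBundle s t f ∧ picardNumber X = 5 ∧
    picardNumber Y = 3 ∧ (∃ K : PrimeDiv Y →₀ ℤ, IsCanonical t K) ∧
    ∀ K : PrimeDiv Y →₀ ℤ, IsCanonical t K → ¬ IsAmple (-K) :=
  FCBS.main

end Pool.Agent.Results.MP_11d637_ag.NonFanoBase
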